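import Mathlib
import Pool.Agent.W90.ZT.Zeta

/-!
# Splitting fields of `L`-functions in `ℤ_p`-towers of curves

For every `ℤ_p`-tower of curves over a finite field of characteristic `p` with finite ramification
locus, the `p ^ n`-th roots of unity generate an extension of bounded degree of the splitting field
`L_{p, n}` of `L(χ_n, s)` over `ℚ_p`. In particular `[L_{p, n} : ℚ_p] ≥ φ(p ^ n) / D` for a constant
`D`, so that `[L_{p, n} : ℚ_p] → ∞` (Wan).
-/

open PowerSeries

namespace Pool.Agent.Results.MP_6895b2_nt.CyclotomicLayers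

open Pool.Agent.H707R3

/-- For every `ℤ_p`-tower there are `D > 0` and `N` such that for `n ≥ N` and every character `χ` of
order `p ^ n`: `L(χ, s)` is a product of factors `1 - α s` (Weil), and the field `L` generated over
`ℚ_p` by the `α` satisfies `[L(μ_{p ^ n}) : L] ≤ D` and `φ(p ^ n) ≤ D [L : ℚ_p]`. -/
theorem result (p : ℕ) [Fact p.Prime] (k F E : Type) [Field k] [Finite k] [CharP k p]
    [Field F] [Algebra k F] [Field E] [Algebra F E] [Algebra k E] [IsScalarTower k F E]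
    (h : IsZpTower k F E p) :
    ∃ D : ℕ, 0 < D ∧ ∃ N : ℕ, ∀ n, N ≤ n →
      ∀ χ : (E ≃ₐ[F] E) →* ℂ_[p]ˣ, orderOf χ = p ^ n →
        (∃ A : Multiset ℂ_[p], Lfun k χ = (A.map fun α => 1 - C α * X).prod) ∧
          ∀ A : Multiset ℂ_[p], Lfun k χ = (A.map fun α => 1 - C α * X).prod →
            ∀ L : IntermediateField ℚ_[p] ℂ_[p],
              L = IntermediateField.adjoin ℚ_[p] {α : ℂ_[p] | α ∈ A} →
              FiniteDimensional ℚ_[p] L ∧
              FiniteDimensional L (IntermediateField.adjoin L {w : ℂ_[p] | w ^ p ^ n = 1}) ∧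
              Module.finrank L (IntermediateField.adjoin L {w : ℂ_[p] | w ^ p ^ n = 1}) ≤ D ∧
              Nat.totient (p ^ n) ≤ D * Module.finrank ℚ_[p] L := by
  obtain ⟨D, hD, N, hN⟩ := W90.ZT.tower_bdd (p := p) k h
  obtain ⟨N', hN'⟩ := Lfun_poly h
  refine ⟨D, hD, max N (max N' 1), fun n hn χ hχ => ⟨hN' n (by omega) χ hχ, ?_⟩⟩
  rintro A hA L rfl
  obtain ⟨h1, h2⟩ := hN n (by omega) χ hχ A hA _ le_rfl
  have hint := W90.ZT.isIntegral_Lfun h (by omega : n ≠ 0) χ hχ A hA
  have hfd : FiniteDimensional ℚ_[p] (genField A) := W90.ZT.finiteDimensional_genField A hint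
  refine ⟨hfd, h1, h2, ?_⟩
  obtain ⟨m, rfl⟩ : ∃ m, n = m + 1 := ⟨n - 1, by omega⟩
  obtain ⟨r, hr0, hrD, hdvd⟩ := W90.ZT.totient_dvd (genField A) h1 h2
  have h3 := Nat.le_of_dvd (Nat.mul_pos (Nat.pos_of_ne_zero (ramIdx_ne_zero A hint)) hr0) hdvd
  have h4 := Pool.Agent.H387R3.ZT.ramIdx_le_finrank A hint
  calc Nat.totient (p ^ (m + 1)) ≤ ramIdx (genField A) * r := h3
    _ ≤ Module.finrank ℚ_[p] (genField A) * D := Nat.mul_le_mul h4 hrD
    _ = D * Module.finrank ℚ_[p] (genField A) := mul_comm _ _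

end Pool.Agent.Results.MP_6895b2_nt.CyclotomicLayers
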